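import Mathlib

namespace Pool.Agent.Results.MP_fa7ade_co.Six

/-- `v` lists the vertices of a directed Hamiltonian cycle `v 0 → v 1 → ... → v 0` -/
def IsHamCycle {n : ℕ} [NeZero n] (A : Fin n → Fin n → Prop) (v : Fin n → Fin n) : Prop :=
  Function.Bijective v ∧ ∀ i, A (v i) (v (i + 1))

/-- the arcs of the cycle listed by `v` -/
def arcs {n : ℕ} [NeZero n] (v : Fin n → Fin n) : Set (Fin n × Fin n) :=
  {p | ∃ i, p = (v i, v (i + 1))}

def outs : Fin 6 → List (Fin 6) :=
  ![[1, 4, 5], [0, 3, 5], [1, 3, 4], [0, 2, 4], [0, 2, 3, 5], [0, 1, 2]]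

def A0 (a b : Fin 6) : Prop := b ∈ outs a

instance : DecidableRel A0 := fun a b => inferInstanceAs (Decidable (b ∈ outs a))

def cyc (l : List (Fin 6)) : List (Fin 6 × Fin 6) := l.zip (l.rotate 1)

def allH : List (List (Fin 6)) :=
  ((List.finRange 6).permutations').filter fun l => (cyc l).all fun p => decide (A0 p.1 p.2)

lemma key : ∀ l ∈ allH, ∀ m ∈ allH, ∃ p ∈ cyc l, p ∈ cyc m := by decide +kernel

lemma mem_allH (v : Fin 6 → Fin 6) (h : IsHamCycle A0 v) :
    [v 0, v 1, v 2, v 3, v 4, v 5] ∈ allH := by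
  rw [allH, List.mem_filter, List.mem_permutations']
  constructor
  · have : [v 0, v 1, v 2, v 3, v 4, v 5] = (List.finRange 6).map v := rfl
    rw [this]
    exact Equiv.Perm.map_finRange_perm (Equiv.ofBijective v h.1)
  · have h0 := h.2 0
    have h1 := h.2 1
    have h2 := h.2 2
    have h3 := h.2 3
    have h4 := h.2 4
    have h5 := h.2 5
    simp only [cyc, List.all_eq_true, decide_eq_true_eq]
    intro p hp
    simp only [List.rotate, List.length_cons, List.length_nil, List.splitAt_eq, List.take,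
      List.drop, List.cons_append, List.nil_append, List.zip_cons_cons, List.zip_nil_right,
      List.mem_cons, List.not_mem_nil, or_false, Nat.reduceAdd, Nat.reduceMod] at hp
    rcases hp with rfl | rfl | rfl | rfl | rfl | rfl <;> assumption

lemma mem_arcs (v : Fin 6 → Fin 6) (p : Fin 6 × Fin 6)
    (hp : p ∈ cyc [v 0, v 1, v 2, v 3, v 4, v 5]) : p ∈ arcs v := by
  simp only [cyc, List.rotate, List.length_cons, List.length_nil, List.splitAt_eq, List.take,
    List.drop, List.cons_append, List.nil_append, List.zip_cons_cons, List.zip_nil_right,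
    List.mem_cons, List.not_mem_nil, or_false, Nat.reduceAdd, Nat.reduceMod] at hp
  rcases hp with rfl | rfl | rfl | rfl | rfl | rfl
  exacts [⟨0, rfl⟩, ⟨1, rfl⟩, ⟨2, rfl⟩, ⟨3, rfl⟩, ⟨4, rfl⟩, ⟨5, rfl⟩]

theorem result : ∃ A : Fin 6 → Fin 6 → Prop, (∀ a, ¬ A a a) ∧
    (∀ a, 6 ≤ 2 * {b | A a b}.ncard ∧ 6 ≤ 2 * {b | A b a}.ncard) ∧
    ¬ ∃ v w : Fin 6 → Fin 6, IsHamCycle A v ∧ IsHamCycle A w ∧ Disjoint (arcs v) (arcs w) := by
  refine ⟨A0, by decide, fun a => ?_, ?_⟩
  · have e1 : {b | A0 a b} = ↑(Finset.univ.filter fun b => A0 a b) := by ext; simp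
    have e2 : {b | A0 b a} = ↑(Finset.univ.filter fun b => A0 b a) := by ext; simp
    rw [e1, e2, Set.ncard_coe_finset, Set.ncard_coe_finset]
    clear e1 e2
    revert a
    decide
  · rintro ⟨v, w, hv, hw, hd⟩
    obtain ⟨p, h1, h2⟩ := key _ (mem_allH v hv) _ (mem_allH w hw)
    exact Set.disjoint_left.1 hd (mem_arcs v p h1) (mem_arcs w p h2)

end Pool.Agent.Results.MP_fa7ade_co.Six
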